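import Pool.Agent.Run7.h282.TS.RISE

/-!
For every large `k` the inequality `t_*(k,r-1) ≤ t_*(k,r)` holds for at least `c k / log k` values of `r`.
-/

set_option autoImplicit false

open Finset Filter Topology

namespace Run7.h282.TS

open Classical in
theorem count : ∃ c : ℝ, 0 < c ∧ ∀ᶠ k : ℕ in atTop, c * ((k : ℝ) / Real.log k) ≤
    (((Finset.Icc 3 k).filter fun r => tk k (r - 1) ≤ tk k r).card : ℝ) := by
  refine ⟨1 / 100, by norm_num, ?_⟩
  have hlo : ∀ᶠ k : ℕ in atTop, Real.log k ≤ 1 / 100 * (k : ℝ) := by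
    have h1 := Real.isLittleO_log_id_atTop.bound (show (0 : ℝ) < 1 / 100 by norm_num)
    have h2 := tendsto_natCast_atTop_atTop (R := ℝ) |>.eventually h1
    filter_upwards [h2] with k hk
    simp only [id, Real.norm_eq_abs] at hk
    calc Real.log k ≤ |Real.log k| := le_abs_self _
      _ ≤ 1 / 100 * |(k : ℝ)| := hk
      _ = 1 / 100 * (k : ℝ) := by rw [abs_of_nonneg (Nat.cast_nonneg k)]
  filter_upwards [hlo, eventually_ge_atTop 4] with k hlogk hk4
  have hk4' : (4 : ℝ) ≤ k := by exact_mod_cast hk4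
  have hlog1 : 1 ≤ Real.log k := by
    rw [Real.le_log_iff_exp_le (by linarith)]
    linarith [Real.exp_one_lt_d9]
  set L : ℕ := ⌈16 * Real.log k⌉₊ with hL
  have hL1 : 16 * Real.log k ≤ L := Nat.le_ceil _
  have hL2 : (L : ℝ) ≤ 17 * Real.log k := by
    have := Nat.ceil_lt_add_one (show 0 ≤ 16 * Real.log k by linarith)
    linarith
  have hLpos : 0 < L := by
    have : (0 : ℝ) < L := by linarith
    exact_mod_cast this
  set h : ℕ := (k + 1) / 2 with hh
  set N : ℕ := (k - h) / L with hN
  have hhk : (k : ℝ) / 2 ≤ h := by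
    have : k ≤ 2 * h := by omega
    have : (k : ℝ) ≤ 2 * h := by exact_mod_cast this
    linarith
  have hNL : N * L ≤ k - h := Nat.div_mul_le_self _ _
  have hex : ∀ i : ℕ, i < N → ∃ j : ℕ, h + i * L < j ∧ j ≤ h + (i + 1) * L ∧
      tk k (j - 1) ≤ tk k j := by
    intro i hi
    have e1 : h + (i + 1) * L ≤ k := by
      have : (i + 1) * L ≤ N * L := Nat.mul_le_mul_right _ hi
      omega
    have e2 : h + i * L < h + (i + 1) * L := by
      have : (i + 1) * L = i * L + L := by ring
      omega
    refine step_of_rise k _ _ e2 (rise k _ _ (by omega) e2 e1 (cond k _ _ (by omega) e2 e1 ?_))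
    have e3 : ((h + (i + 1) * L : ℕ) : ℝ) - ((h + i * L : ℕ) : ℝ) = L := by push_cast; ring
    rw [e3]
    have e4 : (h : ℝ) ≤ ((h + i * L : ℕ) : ℝ) := by exact_mod_cast Nat.le_add_right _ _
    calc 8 * (k : ℝ) * Real.log k = (16 * Real.log k) * ((k : ℝ) / 2) := by ring
      _ ≤ L * ((h + i * L : ℕ) : ℝ) := mul_le_mul hL1 (hhk.trans e4) (by positivity) (by positivity)
  choose! f hf using hex
  have hcard : N ≤ ((Finset.Icc 3 k).filter fun r => tk k (r - 1) ≤ tk k r).card := by
    have h1 : (Finset.range N).card ≤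
        ((Finset.Icc 3 k).filter fun r => tk k (r - 1) ≤ tk k r).card := by
      refine Finset.card_le_card_of_injOn f ?_ ?_
      · intro i hi
        have hi' : i < N := by simpa using hi
        obtain ⟨a1, a2, a3⟩ := hf i hi'
        have e1 : (i + 1) * L ≤ N * L := Nat.mul_le_mul_right _ hi'
        have e2 : 2 ≤ h := by omega
        simp only [Finset.coe_filter, Finset.mem_Icc, Set.mem_setOf_eq]
        refine ⟨⟨?_, ?_⟩, a3⟩
        · have : 0 ≤ i * L := Nat.zero_le _
          omega
        · omega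
      · intro i hi i' hi' hii
        have hi1 : i < N := by simpa using hi
        have hi2 : i' < N := by simpa using hi'
        obtain ⟨a1, a2, -⟩ := hf i hi1
        obtain ⟨b1, b2, -⟩ := hf i' hi2
        by_contra hne
        rcases lt_or_gt_of_ne hne with hlt | hlt
        · have : (i + 1) * L ≤ i' * L := Nat.mul_le_mul_right _ hlt
          omega
        · have : (i' + 1) * L ≤ i * L := Nat.mul_le_mul_right _ hlt
          omega
    simpa using h1
  have hcard' : (N : ℝ) ≤ (((Finset.Icc 3 k).filter fun r => tk k (r - 1) ≤ tk k r).card : ℝ) := by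
    exact_mod_cast hcard
  refine le_trans ?_ hcard'
  have h1 : k - h < L * (N + 1) := by
    have := Nat.lt_mul_div_succ (k - h) hLpos
    simpa [hN] using this
  have h2 : (k : ℝ) - h < L * (N + 1) := by
    have e : ((k - h : ℕ) : ℝ) = (k : ℝ) - h := Nat.cast_sub (by omega)
    rw [← e]
    exact_mod_cast h1
  have h3 : (h : ℝ) ≤ (k + 1) / 2 := by
    have : 2 * h ≤ k + 1 := by omega
    have : (2 : ℝ) * h ≤ k + 1 := by exact_mod_cast this
    linarith
  have h4 : (L : ℝ) * (N + 1) ≤ 17 * Real.log k * (N + 1) :=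
    mul_le_mul_of_nonneg_right hL2 (by positivity)
  have hlogp : 0 < Real.log k := by linarith
  rw [← mul_div_assoc, div_le_iff₀ hlogp]
  have h5 : ((k : ℝ) - 1) / 2 < 17 * Real.log k * (N + 1) := by linarith
  nlinarith

end Run7.h282.TS
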