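import Pool.Agent.Run7.h282.TS.Iface

set_option autoImplicit false

open Finset Filter

namespace Run7.h282.TS

theorem T_le_choose (n k r : ℕ) (h : r ≤ k) : T n k r ≤ n.choose r := by
  refine Nat.sInf_le ⟨(Finset.univ : Finset (Fin n)).powersetCard r, ⟨?_, ?_⟩, ?_⟩
  · intro e he
    exact (Finset.mem_powersetCard.mp he).2
  · intro S hS
    obtain ⟨e, he1, he2⟩ := Finset.exists_subset_card_eq (show r ≤ S.card by omega)
    exact ⟨e, Finset.mem_powersetCard.mpr ⟨Finset.subset_univ _, he2⟩, he1⟩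
  · rw [Finset.card_powersetCard, Finset.card_univ, Fintype.card_fin]

theorem t_nonneg (hL : S_LIM) (k r : ℕ) (h : r < k) (hr : 1 ≤ r) : 0 ≤ t k r := by
  refine (hL 1 k r 1 le_rfl hr zero_le_one ?_).1
  intro n c hc
  have h1 : T n k r ≤ c ^ r := by
    refine (T_le_choose n k r h.le).trans ((Nat.choose_le_pow n r).trans ?_)
    exact Nat.pow_le_pow_left (by omega) r
  calc (T n k r : ℝ) ≤ ((c ^ r : ℕ) : ℝ) := by exact_mod_cast h1
    _ = 1 * (c : ℝ) ^ r := by push_cast; ring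

theorem goal_of (hCOV : S_COV) (hBLOW : S_BLOW) (hL : S_LIM) (hNUM : S_NUM) : S_GOAL := by
  obtain ⟨C, hC⟩ := hNUM
  refine ⟨C, fun r hr => ?_⟩
  have hr1 : 1 ≤ r := by omega
  have hM1 : 1 ≤ r ^ 8 := Nat.one_le_pow _ _ (by omega)
  have hrM : r ^ 2 + 1 ≤ r ^ 8 := by
    have h1 : 2 ^ 6 ≤ r ^ 6 := Nat.pow_le_pow_left hr 6
    have h2 : 2 ^ 2 ≤ r ^ 2 := Nat.pow_le_pow_left hr 2
    calc r ^ 2 + 1 ≤ r ^ 2 * 2 := by omega
      _ ≤ r ^ 2 * r ^ 6 := Nat.mul_le_mul_left _ (by omega)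
      _ = r ^ 8 := by ring
  have hrk : r ≤ r ^ 2 + 1 := by nlinarith
  obtain ⟨H, hH, hHc⟩ := hCOV (r ^ 8) (r ^ 2 + 1) r hrk hrM
  have hh : (r + 1) / 2 ≤ r ^ 8 := by
    have : (r + 1) / 2 ≤ r := by omega
    omega
  set h := (r + 1) / 2 with hh_def
  set A : ℝ := (H.card : ℝ) + ((r ^ 8).choose h : ℝ) * (h : ℝ) ^ r / (r.factorial : ℝ) with hA
  have hA0 : 0 ≤ A := by positivity
  have hT : ∀ n c : ℕ, n ≤ r ^ 8 * c → (T n (r ^ 2 + r + 1) r : ℝ) ≤ A * (c : ℝ) ^ r := by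
    intro n c hnc
    have h1 := hBLOW (r ^ 8) (r ^ 2) r n c H hr1 hh hH hnc
    rw [← hh_def] at h1
    have h2 : ((h * c).choose r : ℝ) ≤ ((h : ℝ) * c) ^ r / (r.factorial : ℝ) := by
      have := @Nat.choose_le_pow_div ℝ _ _ _ r (h * c)
      push_cast at this
      exact this
    calc (T n (r ^ 2 + r + 1) r : ℝ)
        ≤ ((H.card * c ^ r + (r ^ 8).choose h * (h * c).choose r : ℕ) : ℝ) := by exact_mod_cast h1
      _ = (H.card : ℝ) * (c : ℝ) ^ r + ((r ^ 8).choose h : ℝ) * ((h * c).choose r : ℝ) := by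
          push_cast; ring
      _ ≤ (H.card : ℝ) * (c : ℝ) ^ r + ((r ^ 8).choose h : ℝ) * (((h : ℝ) * c) ^ r / (r.factorial : ℝ)) := by
          gcongr
      _ = A * (c : ℝ) ^ r := by
          rw [hA, mul_pow]; ring
  have ht := (hL (r ^ 8) (r ^ 2 + r + 1) r A hM1 hr1 hA0 hT).2
  have hlt : r < r ^ 2 + r + 1 := by nlinarith
  have hbdd : BddBelow (Set.range fun k : {k : ℕ // r < k} => tk k.1 r) := by
    refine ⟨0, ?_⟩
    rintro _ ⟨k, rfl⟩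
    have hk : (1 : ℝ) ≤ (k.1 : ℝ) := by
      have := k.2
      exact_mod_cast (by omega : 1 ≤ k.1)
    have := t_nonneg hL k.1 r k.2 hr1
    simp only [tk]
    have h3 : (0 : ℝ) ≤ (k.1 : ℝ) - 1 := by linarith
    positivity
  refine (ciInf_le hbdd ⟨r ^ 2 + r + 1, hlt⟩).trans ?_
  have hN := hC r hr (H.card : ℝ) hHc
  rw [← hh_def] at hN
  refine le_trans ?_ hN
  simp only [tk]
  have hf : (0 : ℝ) < (r.factorial : ℝ) := by exact_mod_cast Nat.factorial_pos r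
  have hMp : (0 : ℝ) < ((r : ℝ) ^ 8) ^ r := by
    have : (0 : ℝ) < (r : ℝ) := by exact_mod_cast (by omega : 0 < r)
    positivity
  have hk1 : (((r ^ 2 + r + 1 : ℕ) : ℝ) - 1) = (r : ℝ) ^ 2 + r := by push_cast; ring
  rw [hk1]
  have h5 : (0 : ℝ) ≤ ((r : ℝ) ^ 2 + r) ^ (r - 1) / (r.factorial : ℝ) := by positivity
  calc ((r : ℝ) ^ 2 + r) ^ (r - 1) / (r.factorial : ℝ) * t (r ^ 2 + r + 1) r
      ≤ ((r : ℝ) ^ 2 + r) ^ (r - 1) / (r.factorial : ℝ) *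
          (A * (r.factorial : ℝ) / ((r ^ 8 : ℕ) : ℝ) ^ r) := mul_le_mul_of_nonneg_left ht h5
    _ = ((r : ℝ) ^ 2 + r) ^ (r - 1) * A / ((r : ℝ) ^ 8) ^ r := by
        push_cast
        field_simp

end Run7.h282.TS
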