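import Mathlib

/-!
# Interface: the rescaled Turan density satisfies `t_*(r) = O(log r)` (MP_ea5d3c_co, partial)

Known: `t_*(r) <= (r-1)^(r-1)/r!`, exponential in `r`. Here: `t_*(r) <= C log r`.

Proof. Let `r >= 2`, `k' = r^2`, `M = r^8` labels. (COV) choose an `r`-graph `H` on the labels in which every
`k'+1` labels contain an edge, `|H| <= C(M,r)/C(k'+1,r) * log C(M,k'+1) + 1` (random choice).
(BLOW) give the `n` vertices labels, at most `c` vertices for each label, and take all `r`-sets `e` of vertices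
whose labels form an edge of `H` (at most `|H| c^r`), and all `r`-sets with at most `h = (r+1)/2` labels (at
most `C(M,h) C(h c, r)`). A set `S` of `k'+r+1` vertices contains one of them: this is clear if it has more than
`k'` labels; otherwise `sum over labels of (multiplicity - 1) >= r + 1`, let `Y` be the set of the labels with
at least two vertices in `S`: if `|Y| >= h` take two vertices for each of `h` labels in `Y` (and delete one
if `r` is odd), otherwise at least `r + 1` vertices of `S` have their labels in `Y`, take `r` of these.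
(LIM) let `n` tend to infinity. (NUM) numerical estimate.

Deliver `theorem t_XXX : S_XXX` in `Pool/Agent/Run7/<you>/TS/XXX.lean`, importing
`Pool.Agent.Run7.h282.TS.Iface`. No double quotes anywhere in the file.
-/

set_option autoImplicit false

open Finset Filter

namespace Run7.h282.TS

/-- `E` is an `r`-graph on `n` vertices in which every set of `k` vertices contains an edge -/
def IsSys (n k r : ℕ) (E : Finset (Finset (Fin n))) : Prop :=
  (∀ e ∈ E, e.card = r) ∧ ∀ S : Finset (Fin n), S.card = k → ∃ e ∈ E, e ⊆ S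

/-- the Turan number `T(n,k,r)` -/
noncomputable def T (n k r : ℕ) : ℕ :=
  sInf {m : ℕ | ∃ E : Finset (Finset (Fin n)), IsSys n k r E ∧ E.card = m}

/-- the Turan density `t(k,r)`, the limit of `T(n,k,r) / C(n,r)` -/
noncomputable def t (k r : ℕ) : ℝ :=
  limsup (fun n : ℕ => (T n k r : ℝ) / (n.choose r : ℝ)) atTop

/-- the rescaled Turan density `t_*(k,r)` -/
noncomputable def tk (k r : ℕ) : ℝ := ((k : ℝ) - 1) ^ (r - 1) / (r.factorial : ℝ) * t k r

/-- `t_*(r) = inf over k > r of t_*(k,r)` -/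
noncomputable def tstar (r : ℕ) : ℝ := ⨅ k : {k : ℕ // r < k}, tk k.1 r

/-- COV (60 lines). Random choice of an `r`-graph.
Proof: let `R` be the set of the `r`-subsets, `a = |R| = C(M,r)`, `b = C(k,r)`, `N` as below. The number of pairs
`(S, f)`, `f : Fin N → R`, `|S| = k`, with no `f i ⊆ S` is `C(M,k) (a - b)^N < a^N` since
`(1 - b/a)^N ≤ exp (- N b / a) < 1 / C(M,k)` for `N > (a/b) log C(M,k)`. So some `f` is good; `H` its range;
take `N = ⌊(a/b) log C(M,k)⌋₊ + 1`. -/
def S_COV : Prop := ∀ M k r : ℕ, r ≤ k → k ≤ M → ∃ H : Finset (Finset (Fin M)), IsSys M k r H ∧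
  (H.card : ℝ) ≤ (M.choose r : ℝ) / (k.choose r : ℝ) * Real.log (M.choose k : ℝ) + 1

/-- BLOW (120 lines). Blow-up, see the header; `φ v = v / c : Fin M` (fibres of size at most `c`). The count
of the `r`-sets with at most `h` labels: they are subsets of the preimages of the `h`-subsets `W` of the
labels (at most `h c` vertices each). -/
def S_BLOW : Prop := ∀ (M k' r n c : ℕ) (H : Finset (Finset (Fin M))), 1 ≤ r → (r + 1) / 2 ≤ M →
  IsSys M (k' + 1) r H → n ≤ M * c →
  T n (k' + r + 1) r ≤ H.card * c ^ r + M.choose ((r + 1) / 2) * (((r + 1) / 2) * c).choose r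

/-- LIM (50 lines). Proof: take `c = n / M + 1` (natural division), `c ≤ n / M + 1` (real), and
`(n / M + 1)^r / C(n,r) → r! / M^r` (`Nat.isEquivalent_choose` or direct); `limsup` is monotone, the left side
is at least `0` and the right side is bounded. -/
def S_LIM : Prop := ∀ (M k r : ℕ) (A : ℝ), 1 ≤ M → 1 ≤ r → 0 ≤ A →
  (∀ n c : ℕ, n ≤ M * c → (T n k r : ℝ) ≤ A * (c : ℝ) ^ r) →
  0 ≤ t k r ∧ t k r ≤ A * (r.factorial : ℝ) / (M : ℝ) ^ r

/-- NUM (80 lines). Numerical estimate, `M = r^8`, `k' = r^2`, `h = (r+1)/2`.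
Proof: `C(M,r)/C(r^2+1,r) ≤ M^r / (r^2+1).descFactorial r`, `(r^2+1).descFactorial r ≥ (r^2-r+2)^r`,
`((r^2+r)/(r^2-r+2))^(r-1) ≤ (1+2/r)^(r-1) ≤ e^2`, `C(M,r^2+1) ≤ M^(r^2+1)`, so
the first term is at most `e^2 * 8 (r^2+1)/(r^2-r+2) * log r ≤ 16 e^2 log r`; the second one `(+1)` is at
most `1`; for the third one use `C(M,h) ≤ M^h`, `h ≤ r`, `(r^2+r)^(r-1) ≤ (2r^2)^(r-1)`, `M^(r-h) ≥ r^(4(r-1))`:
it is at most `2^(r-1) r^(3r-2) / r^(4r-4) = 2^(r-1) r^(2-r) ≤ 4`. -/
def S_NUM : Prop := ∃ C : ℝ, ∀ r : ℕ, 2 ≤ r → ∀ a : ℝ,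
  a ≤ ((r ^ 8).choose r : ℝ) / ((r ^ 2 + 1).choose r : ℝ) *
      Real.log ((r ^ 8).choose (r ^ 2 + 1) : ℝ) + 1 →
  ((r : ℝ) ^ 2 + r) ^ (r - 1) * (a + ((r ^ 8).choose ((r + 1) / 2) : ℝ) *
    (((r + 1) / 2 : ℕ) : ℝ) ^ r / (r.factorial : ℝ)) / ((r : ℝ) ^ 8) ^ r ≤ C * Real.log r

/-- the goal -/
def S_GOAL : Prop := ∃ C : ℝ, ∀ r : ℕ, 2 ≤ r → tstar r ≤ C * Real.log r

end Run7.h282.TS
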