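import Pool.Agent.Run7.h282.TS.FIN
import Pool.Agent.Run7.h99.TS.LIM
import Pool.Agent.TH173.RT.Mono

/-!
Lower bound `t_*(r) ≥ 1 / (6 r)` and the resulting near-monotonicity (for MP_ff43e2_co).
-/

set_option autoImplicit false

open Finset Filter Topology

namespace Run7.h282.TS

theorem T_eq (n k r : ℕ) : T n k r = Pool.Agent.TH173.RT.TT n k r := rfl

/-- an `r`-graph with at most `m - k` edges on `m` vertices has an independent set of size `k` -/
theorem T_ge (m k r : ℕ) (hr : 1 ≤ r) (hrk : r ≤ k) (hkm : k ≤ m) : m - k + 1 ≤ T m k r := by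
  classical
  obtain ⟨E, hE, hc⟩ := Pool.Agent.TH173.RT.TT_spec (n := m) hrk
  rw [T_eq, ← hc]
  by_contra hlt
  push Not at hlt
  have hE2 : E.card ≤ m - k := by omega
  haveI : Nonempty (Fin m) := ⟨⟨0, by omega⟩⟩
  -- choose a vertex in every edge
  have hne : ∀ e ∈ E, e.Nonempty := fun e he => by
    rw [← Finset.card_pos, hE.1 e he]; omega
  choose! f hf using hne
  have h1 : (E.image f).card ≤ m - k := Finset.card_image_le.trans hE2
  have h2 : k ≤ ((E.image f)ᶜ).card := by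
    rw [Finset.card_compl, Fintype.card_fin]; omega
  obtain ⟨S, hS1, hS2⟩ := Finset.exists_subset_card_eq h2
  obtain ⟨e, he1, he2⟩ := hE.2 S hS2
  have h3 := hS1 (he2 (hf e he1))
  rw [Finset.mem_compl] at h3
  exact h3 (Finset.mem_image_of_mem f he1)

theorem t_ge (m k r : ℕ) (hr : 1 ≤ r) (hrk : r ≤ k) (hkm : k ≤ m) :
    ((m : ℝ) - k + 1) / (m.choose r : ℝ) ≤ t k r := by
  obtain ⟨t', ht'⟩ := Pool.Agent.TH173.RT.exists_dens hrk
  have h1 : t k r = t' := by
    have : Tendsto (fun n : ℕ => (T n k r : ℝ) / (n.choose r : ℝ)) atTop (𝓝 t') := ht'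
    exact this.limsup_eq
  rw [h1]
  have hm : ∀ n : ℕ, m ≤ n → (T m k r : ℝ) / (m.choose r : ℝ) ≤ (T n k r : ℝ) / (n.choose r : ℝ) := by
    intro n hn
    induction n, hn using Nat.le_induction with
    | base => exact le_rfl
    | succ n hn ih => exact ih.trans (Pool.Agent.TH173.RT.ratio_mono hrk (by omega))
  have h2 : (T m k r : ℝ) / (m.choose r : ℝ) ≤ t' := by
    refine ge_of_tendsto (f := fun n : ℕ => (T n k r : ℝ) / (n.choose r : ℝ)) ht' ?_
    filter_upwards [eventually_ge_atTop m] with n hn using hm n hn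
  refine le_trans ?_ h2
  have h3 := T_ge m k r hr hrk hkm
  have h4 : (m : ℝ) - k + 1 ≤ (T m k r : ℝ) := by
    have : ((m - k + 1 : ℕ) : ℝ) ≤ (T m k r : ℝ) := by exact_mod_cast h3
    rw [Nat.cast_add, Nat.cast_sub hkm] at this
    simpa using this
  gcongr

theorem tk_ge (k r : ℕ) (hr : 2 ≤ r) (hrk : r < k) : 1 / (6 * (r : ℝ)) ≤ tk k r := by
  obtain ⟨a, rfl⟩ : ∃ a, k = a + 1 := ⟨k - 1, by omega⟩
  have har : r ≤ a := by omega
  set s := a / r with hs
  have hs1 : 1 ≤ s := (Nat.one_le_div_iff (by omega)).2 har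
  have hrp : (0 : ℝ) < r := by exact_mod_cast (by omega : 0 < r)
  have hap : (0 : ℝ) < a := by exact_mod_cast (by omega : 0 < a)
  have hsp : (0 : ℝ) < s := by exact_mod_cast hs1
  have hs2 : (s : ℝ) * r ≤ a := by exact_mod_cast Nat.div_mul_le_self a r
  have hs3 : (a : ℝ) ≤ 2 * (s * r) := by
    have h1 : a < r * (a / r) + r := by
      have := Nat.div_add_mod a r
      have := Nat.mod_lt a (show 0 < r by omega)
      omega
    have h2 : a ≤ 2 * (s * r) := by
      rw [← hs] at h1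
      nlinarith
    exact_mod_cast h2
  have h1 := t_ge (a + s) (a + 1) r (by omega) (by omega) (by omega)
  have h2 : ((a + s : ℕ) : ℝ) - ((a + 1 : ℕ) : ℝ) + 1 = s := by push_cast; ring
  rw [h2] at h1
  have hf : (0 : ℝ) < (r.factorial : ℝ) := by exact_mod_cast Nat.factorial_pos r
  have h3 : ((a + s).choose r : ℝ) ≤ ((a : ℝ) + s) ^ r / (r.factorial : ℝ) := by
    have := @Nat.choose_le_pow_div ℝ _ _ _ r (a + s)
    push_cast at this
    exact this
  have h4 : (0 : ℝ) < ((a + s).choose r : ℝ) := by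
    exact_mod_cast Nat.choose_pos (show r ≤ a + s by omega)
  have h5 : (s : ℝ) / (((a : ℝ) + s) ^ r / (r.factorial : ℝ)) ≤ t (a + 1) r :=
    (div_le_div_of_nonneg_left hsp.le h4 h3).trans h1
  have h6 : (a : ℝ) ^ (r - 1) / (r.factorial : ℝ) * ((s : ℝ) / (((a : ℝ) + s) ^ r / (r.factorial : ℝ))) ≤
      tk (a + 1) r := by
    unfold tk
    have : ((a + 1 : ℕ) : ℝ) - 1 = a := by push_cast; ring
    rw [this]
    exact mul_le_mul_of_nonneg_left h5 (by positivity)
  refine le_trans ?_ h6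
  have h7 : (a : ℝ) ^ (r - 1) / (r.factorial : ℝ) * ((s : ℝ) / (((a : ℝ) + s) ^ r / (r.factorial : ℝ))) =
      (s / a) * (a ^ r / (a + s) ^ r) := by
    have e1 : (a : ℝ) ^ r = a ^ (r - 1) * a := by
      rw [← pow_succ]; congr 1; omega
    rw [e1]
    field_simp
  rw [h7]
  -- `(a + s)^r ≤ 3 a^r`
  have h8 : ((a : ℝ) + s) ^ r ≤ 3 * a ^ r := by
    have e1 : (a : ℝ) + s ≤ a * (1 + 1 / r) := by
      have : (s : ℝ) ≤ a / r := by rw [le_div_iff₀ hrp]; exact hs2
      calc (a : ℝ) + s ≤ a + a / r := by linarith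
        _ = a * (1 + 1 / r) := by ring
    have e2 : (1 + 1 / (r : ℝ)) ^ r ≤ 3 := by
      have e3 : (1 + 1 / (r : ℝ)) ≤ Real.exp (1 / r) := by
        have := Real.add_one_le_exp (1 / (r : ℝ)); linarith
      calc (1 + 1 / (r : ℝ)) ^ r ≤ (Real.exp (1 / r)) ^ r := pow_le_pow_left₀ (by positivity) e3 r
        _ = Real.exp 1 := by
          rw [← Real.exp_nat_mul]; congr 1; field_simp
        _ ≤ 3 := by linarith [Real.exp_one_lt_d9]
    calc ((a : ℝ) + s) ^ r ≤ (a * (1 + 1 / r)) ^ r := pow_le_pow_left₀ (by positivity) e1 r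
      _ = (1 + 1 / (r : ℝ)) ^ r * a ^ r := by rw [mul_pow]; ring
      _ ≤ 3 * a ^ r := mul_le_mul_of_nonneg_right e2 (by positivity)
  have h9 : 1 / (2 * (r : ℝ)) ≤ s / a := by
    rw [div_le_div_iff₀ (by positivity) hap]
    linarith
  have h10 : (1 : ℝ) / 3 ≤ a ^ r / (a + s) ^ r := by
    rw [div_le_div_iff₀ (by norm_num) (by positivity)]
    linarith
  calc 1 / (6 * (r : ℝ)) = 1 / (2 * (r : ℝ)) * (1 / 3) := by field_simp; norm_num
    _ ≤ (s / a) * (a ^ r / (a + s) ^ r) := mul_le_mul h9 h10 (by norm_num) (by positivity)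

theorem tstar_ge (r : ℕ) (hr : 2 ≤ r) : 1 / (6 * (r : ℝ)) ≤ tstar r := by
  haveI : Nonempty {k : ℕ // r < k} := ⟨⟨r + 1, by omega⟩⟩
  exact le_ciInf fun k => tk_ge k.1 r hr k.2

theorem near_mono (hG : S_GOAL) : ∃ C : ℝ, 0 < C ∧ ∀ s r : ℕ, 2 ≤ s → s < r →
    ∃ j : ℕ, s < j ∧ j ≤ r ∧
      tstar (j - 1) ≤ (C * r * Real.log s) ^ ((1 : ℝ) / ((r : ℝ) - s)) * tstar j := by
  obtain ⟨C0, hC0⟩ := hG
  refine ⟨6 * (|C0| + 1), by positivity, fun s r hs hsr => ?_⟩
  set Q : ℝ := 6 * (|C0| + 1) * r * Real.log s with hQ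
  have hlog : 0 < Real.log s := Real.log_pos (by exact_mod_cast (by omega : 1 < s))
  have hrp : (0 : ℝ) < r := by exact_mod_cast (by omega : 0 < r)
  have hQ0 : 0 < Q := by positivity
  have hd : (0 : ℝ) < (r : ℝ) - s := by
    have : (s : ℝ) < r := by exact_mod_cast hsr
    linarith
  set q : ℝ := Q ^ ((1 : ℝ) / ((r : ℝ) - s)) with hq
  have hq0 : 0 < q := Real.rpow_pos_of_pos hQ0 _
  have hqd : q ^ (r - s) = Q := by
    rw [hq, ← Real.rpow_natCast, ← Real.rpow_mul hQ0.le, Nat.cast_sub hsr.le]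
    rw [one_div_mul_cancel hd.ne', Real.rpow_one]
  by_contra hcon
  push Not at hcon
  -- `q ^ i * tstar (s + i) < tstar s` for `1 ≤ i ≤ r - s`
  have key : ∀ i : ℕ, 1 ≤ i → s + i ≤ r → q ^ i * tstar (s + i) < tstar s := by
    intro i hi
    induction i, hi using Nat.le_induction with
    | base =>
      intro h
      have := hcon (s + 1) (by omega) h
      simpa using this
    | succ i hi ih =>
      intro h
      have h1 := ih (by omega)
      have h2 := hcon (s + (i + 1)) (by omega) h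
      have h3 : s + (i + 1) - 1 = s + i := by omega
      rw [h3] at h2
      calc q ^ (i + 1) * tstar (s + (i + 1)) = q ^ i * (q * tstar (s + (i + 1))) := by ring
        _ < q ^ i * tstar (s + i) := mul_lt_mul_of_pos_left h2 (by positivity)
        _ < tstar s := h1
  have h1 := key (r - s) (by omega) (by omega)
  rw [hqd, show s + (r - s) = r by omega] at h1
  have h2 := tstar_ge r (by omega)
  have h3 := hC0 s hs
  have h4 : C0 * Real.log s ≤ (|C0| + 1) * Real.log s :=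
    mul_le_mul_of_nonneg_right (by linarith [le_abs_self C0]) hlog.le
  have h5 : Q * (1 / (6 * (r : ℝ))) = (|C0| + 1) * Real.log s := by
    rw [hQ]; field_simp
  have h6 : Q * (1 / (6 * (r : ℝ))) ≤ Q * tstar r := mul_le_mul_of_nonneg_left h2 hQ0.le
  linarith

end Run7.h282.TS
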