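import Pool.Agent.Run7.h282.TS.LOW
import Pool.Agent.TH173.RT.Near

/-!
`t_*(k,s) ≤ t_*(k,r)` for long steps (for MP_1e26d1_co).
-/

set_option autoImplicit false

open Finset Filter Topology

namespace Run7.h282.TS

theorem tk_upper (k s : ℕ) (hs : 2 ≤ s) (hsk : s < k) :
    tk k s ≤ ((k : ℝ) - 1) ^ (s - 1) * (4 + 5 * ((k : ℝ) - s) * Real.log k) /
      (k.descFactorial s : ℝ) := by
  obtain ⟨t', ht'⟩ := Pool.Agent.TH173.RT.exists_dens hsk.le
  have h1 : t k s = t' := by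
    have : Tendsto (fun n : ℕ => (T n k s : ℝ) / (n.choose s : ℝ)) atTop (𝓝 t') := ht'
    exact this.limsup_eq
  have h2 := Pool.Agent.TH173.RT.dens_upper2 hs hsk ht'
  rw [Nat.cast_sub hsk.le] at h2
  have hk1 : (1 : ℝ) ≤ k := by exact_mod_cast (by omega : 1 ≤ k)
  have hf : (0 : ℝ) < (s.factorial : ℝ) := by exact_mod_cast Nat.factorial_pos s
  have hc : (0 : ℝ) < (k.choose s : ℝ) := by exact_mod_cast Nat.choose_pos hsk.le
  have hD : (k.descFactorial s : ℝ) = s.factorial * k.choose s := by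
    exact_mod_cast Nat.descFactorial_eq_factorial_mul_choose k s
  have h0 : (0 : ℝ) ≤ (k : ℝ) - 1 := by linarith
  unfold tk
  rw [h1, hD]
  calc ((k : ℝ) - 1) ^ (s - 1) / (s.factorial : ℝ) * t'
      ≤ ((k : ℝ) - 1) ^ (s - 1) / (s.factorial : ℝ) *
        ((4 + 5 * ((k : ℝ) - s) * Real.log k) / (k.choose s : ℝ)) :=
        mul_le_mul_of_nonneg_left h2 (by positivity)
    _ = ((k : ℝ) - 1) ^ (s - 1) * (4 + 5 * ((k : ℝ) - s) * Real.log k) /
      ((s.factorial : ℝ) * k.choose s) := by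
        field_simp

theorem tk_lower (k r : ℕ) (hr : 2 ≤ r) (hrk : r ≤ k) :
    ((k : ℝ) - 1) ^ (r - 1) / (k.descFactorial r : ℝ) ≤ tk k r := by
  obtain ⟨t', ht'⟩ := Pool.Agent.TH173.RT.exists_dens hrk
  have h1 : t k r = t' := by
    have : Tendsto (fun n : ℕ => (T n k r : ℝ) / (n.choose r : ℝ)) atTop (𝓝 t') := ht'
    exact this.limsup_eq
  have h2 := Pool.Agent.TH173.RT.dens_lower hrk ht'
  have hk1 : (1 : ℝ) ≤ k := by exact_mod_cast (by omega : 1 ≤ k)
  have hf : (0 : ℝ) < (r.factorial : ℝ) := by exact_mod_cast Nat.factorial_pos r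
  have hc : (0 : ℝ) < (k.choose r : ℝ) := by exact_mod_cast Nat.choose_pos hrk
  have hD : (k.descFactorial r : ℝ) = r.factorial * k.choose r := by
    exact_mod_cast Nat.descFactorial_eq_factorial_mul_choose k r
  have h0 : (0 : ℝ) ≤ (k : ℝ) - 1 := by linarith
  unfold tk
  rw [h1, hD]
  calc ((k : ℝ) - 1) ^ (r - 1) / ((r.factorial : ℝ) * k.choose r)
      = ((k : ℝ) - 1) ^ (r - 1) / (r.factorial : ℝ) * (1 / (k.choose r : ℝ)) := by
        field_simp
    _ ≤ ((k : ℝ) - 1) ^ (r - 1) / (r.factorial : ℝ) * t' :=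
        mul_le_mul_of_nonneg_left h2 (by positivity)

theorem rise (k s r : ℕ) (hs : 2 ≤ s) (hsr : s < r) (hrk : r ≤ k)
    (h : (4 + 5 * ((k : ℝ) - s) * Real.log k) * ((k : ℝ) - s) ^ (r - s) ≤ ((k : ℝ) - 1) ^ (r - s)) :
    tk k s ≤ tk k r := by
  have hsk : s < k := lt_of_lt_of_le hsr hrk
  refine (tk_upper k s hs hsk).trans (le_trans ?_ (tk_lower k r (by omega) hrk))
  have hk1 : (1 : ℝ) < k := by exact_mod_cast (by omega : 1 < k)
  have hks : (0 : ℝ) < (k : ℝ) - s := by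
    have : (s : ℝ) < k := by exact_mod_cast hsk
    linarith
  have hX : (0 : ℝ) ≤ 4 + 5 * ((k : ℝ) - s) * Real.log k := by
    have := Real.log_nonneg hk1.le
    positivity
  have hDs : (0 : ℝ) < (k.descFactorial s : ℝ) := by
    exact_mod_cast Nat.descFactorial_pos.2 hsk.le
  have hDr : (0 : ℝ) < (k.descFactorial r : ℝ) := by
    exact_mod_cast Nat.descFactorial_pos.2 hrk
  have h1 : (k.descFactorial r : ℝ) ≤ ((k : ℝ) - s) ^ (r - s) * (k.descFactorial s : ℝ) := by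
    have e1 := Nat.descFactorial_mul_descFactorial (n := k) hsr.le
    have e2 : (k - s).descFactorial (r - s) ≤ (k - s) ^ (r - s) := Nat.descFactorial_le_pow _ _
    have e3 : k.descFactorial r ≤ (k - s) ^ (r - s) * k.descFactorial s := by
      rw [← e1]; exact Nat.mul_le_mul_right _ e2
    have e4 : ((k - s : ℕ) : ℝ) = (k : ℝ) - s := Nat.cast_sub hsk.le
    rw [← e4]
    exact_mod_cast e3
  rw [div_le_div_iff₀ hDs hDr]
  have h2 : (0 : ℝ) < ((k : ℝ) - 1) ^ (s - 1) := pow_pos (by linarith) _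
  have h3 : ((k : ℝ) - 1) ^ (r - 1) = ((k : ℝ) - 1) ^ (s - 1) * ((k : ℝ) - 1) ^ (r - s) := by
    rw [← pow_add]; congr 1; omega
  calc ((k : ℝ) - 1) ^ (s - 1) * (4 + 5 * ((k : ℝ) - s) * Real.log k) * (k.descFactorial r : ℝ)
      ≤ ((k : ℝ) - 1) ^ (s - 1) * (4 + 5 * ((k : ℝ) - s) * Real.log k) *
        (((k : ℝ) - s) ^ (r - s) * (k.descFactorial s : ℝ)) :=
        mul_le_mul_of_nonneg_left h1 (by positivity)
    _ = ((k : ℝ) - 1) ^ (s - 1) * (k.descFactorial s : ℝ) *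
        ((4 + 5 * ((k : ℝ) - s) * Real.log k) * ((k : ℝ) - s) ^ (r - s)) := by ring
    _ ≤ ((k : ℝ) - 1) ^ (s - 1) * (k.descFactorial s : ℝ) * ((k : ℝ) - 1) ^ (r - s) :=
        mul_le_mul_of_nonneg_left h (by positivity)
    _ = ((k : ℝ) - 1) ^ (r - 1) * (k.descFactorial s : ℝ) := by rw [h3]; ring

theorem step_of_rise (k s r : ℕ) (hsr : s < r) (h : tk k s ≤ tk k r) :
    ∃ j : ℕ, s < j ∧ j ≤ r ∧ tk k (j - 1) ≤ tk k j := by
  by_contra hcon
  push Not at hcon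
  have key : ∀ i : ℕ, 1 ≤ i → s + i ≤ r → tk k (s + i) < tk k s := by
    intro i hi
    induction i, hi using Nat.le_induction with
    | base =>
      intro h
      have := hcon (s + 1) (by omega) h
      simpa using this
    | succ i hi ih =>
      intro h
      have h1 := ih (by omega)
      have h2 := hcon (s + (i + 1)) (by omega) h
      have h3 : s + (i + 1) - 1 = s + i := by omega
      rw [h3] at h2
      exact h2.trans h1
  have h1 := key (r - s) (by omega) (by omega)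
  rw [show s + (r - s) = r by omega] at h1
  linarith

theorem cond (k s r : ℕ) (hs : 2 ≤ s) (hsr : s < r) (hrk : r ≤ k)
    (h : 8 * (k : ℝ) * Real.log k ≤ ((r : ℝ) - s) * s) :
    (4 + 5 * ((k : ℝ) - s) * Real.log k) * ((k : ℝ) - s) ^ (r - s) ≤ ((k : ℝ) - 1) ^ (r - s) := by
  have hk3 : (3 : ℝ) ≤ k := by exact_mod_cast (by omega : 3 ≤ k)
  have hs2 : (2 : ℝ) ≤ s := by exact_mod_cast hs
  have hsk : (s : ℝ) < k := by exact_mod_cast (by omega : s < k)
  have hkp : (0 : ℝ) < k := by linarith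
  have hk1 : (0 : ℝ) < (k : ℝ) - 1 := by linarith
  have hlog0 : 0 ≤ Real.log k := Real.log_nonneg (by linarith)
  have hlogk : Real.log k ≤ k := (Real.log_le_sub_one_of_pos hkp).trans (by linarith)
  have hL : ((r - s : ℕ) : ℝ) = (r : ℝ) - s := Nat.cast_sub hsr.le
  have h1 : ((k : ℝ) - s) / (k - 1) ≤ Real.exp (-((s : ℝ) / (2 * k))) := by
    have e1 : ((k : ℝ) - s) / (k - 1) ≤ 1 - (s : ℝ) / (2 * k) := by
      rw [div_le_iff₀ hk1]
      have e2 : (s : ℝ) / (2 * k) * (k - 1) ≤ s - 1 := by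
        have e3 : (s : ℝ) / (2 * k) * (k - 1) ≤ (s : ℝ) / (2 * k) * k := by
          gcongr; linarith
        have e4 : (s : ℝ) / (2 * k) * k = s / 2 := by field_simp
        linarith
      have : (1 - (s : ℝ) / (2 * k)) * (k - 1) = (k - 1) - (s : ℝ) / (2 * k) * (k - 1) := by ring
      linarith
    have := Real.add_one_le_exp (-((s : ℝ) / (2 * k)))
    linarith
  have h2 : (((k : ℝ) - s) / (k - 1)) ^ (r - s) ≤ 1 / (k : ℝ) ^ 4 := by
    calc (((k : ℝ) - s) / (k - 1)) ^ (r - s) ≤ (Real.exp (-((s : ℝ) / (2 * k)))) ^ (r - s) :=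
          pow_le_pow_left₀ (div_nonneg (by linarith) hk1.le) h1 _
      _ = Real.exp (((r : ℝ) - s) * (-((s : ℝ) / (2 * k)))) := by
          rw [← Real.exp_nat_mul, hL]
      _ ≤ Real.exp (-(4 * Real.log k)) := by
          apply Real.exp_le_exp.2
          have e1 : ((r : ℝ) - s) * (-((s : ℝ) / (2 * k))) = -((((r : ℝ) - s) * s) / (2 * k)) := by ring
          rw [e1, neg_le_neg_iff, le_div_iff₀ (by positivity)]
          linarith
      _ = 1 / (k : ℝ) ^ 4 := by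
          rw [Real.exp_neg, one_div]
          congr 1
          have : (4 : ℝ) * Real.log k = ((4 : ℕ) : ℝ) * Real.log k := by norm_num
          rw [this, Real.exp_nat_mul, Real.exp_log hkp]
  have h3 : 4 + 5 * ((k : ℝ) - s) * Real.log k ≤ (k : ℝ) ^ 4 := by
    have e1 : 5 * ((k : ℝ) - s) * Real.log k ≤ 5 * (k - 2) * k := by
      have : ((k : ℝ) - s) * Real.log k ≤ (k - 2) * k :=
        mul_le_mul (by linarith) hlogk hlog0 (by linarith)
      nlinarith
    nlinarith [sq_nonneg ((k : ℝ) - 3), mul_pos hkp hkp, pow_pos hkp 3, mul_nonneg (sq_nonneg (k : ℝ)) (show (0 : ℝ) ≤ (k : ℝ) ^ 2 - 9 by nlinarith)]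
  have h4 : ((k : ℝ) - s) ^ (r - s) ≤ 1 / (k : ℝ) ^ 4 * ((k : ℝ) - 1) ^ (r - s) := by
    rw [div_pow, div_le_iff₀ (by positivity)] at h2
    exact h2
  have h5 : (0 : ℝ) ≤ 4 + 5 * ((k : ℝ) - s) * Real.log k := by
    have : (0 : ℝ) ≤ (k : ℝ) - s := by linarith
    positivity
  calc (4 + 5 * ((k : ℝ) - s) * Real.log k) * ((k : ℝ) - s) ^ (r - s)
      ≤ (4 + 5 * ((k : ℝ) - s) * Real.log k) * (1 / (k : ℝ) ^ 4 * ((k : ℝ) - 1) ^ (r - s)) :=
        mul_le_mul_of_nonneg_left h4 h5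
    _ ≤ (k : ℝ) ^ 4 * (1 / (k : ℝ) ^ 4 * ((k : ℝ) - 1) ^ (r - s)) :=
        mul_le_mul_of_nonneg_right h3 (by positivity)
    _ = ((k : ℝ) - 1) ^ (r - s) := by
        field_simp

end Run7.h282.TS
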